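import Mathlib
import Pool.Agent.Helper52.EHP.Basic

/-!
Analytic part of the numerical conditions (B'), (C').
-/

open Real Set

namespace EHP.NumB

/-- rounding up to a multiple of `2⁻²⁴` -/
def up (x : ℚ) : ℚ := (⌈x * 16777216⌉ : ℚ) / 16777216

/-- rounding down to a multiple of `2⁻²⁴` -/
def dn (x : ℚ) : ℚ := (⌊x * 16777216⌋ : ℚ) / 16777216

theorem le_up (x : ℚ) : x ≤ up x := by
  unfold up
  rw [le_div_iff₀ (by norm_num)]
  exact Int.le_ceil _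

theorem dn_le (x : ℚ) : dn x ≤ x := by
  unfold dn
  rw [div_le_iff₀ (by norm_num)]
  exact Int.floor_le _

theorem dn_nonneg {x : ℚ} (hx : 0 ≤ x) : 0 ≤ dn x := by
  unfold dn
  apply div_nonneg _ (by norm_num)
  have : 0 ≤ ⌊x * 16777216⌋ := Int.floor_nonneg.2 (by positivity)
  exact_mod_cast this

/-- lower bound for `(k-1)/(k+1)` -/
def t0 : ℚ := 9497 / 10000

/-- Horner scheme with rounding for the series of `(artanh T - μ artanh (tT))/T` in `s = T²` -/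
def hor (mu s : ℚ) : ℕ → ℕ → ℚ → ℚ
  | 0, j, _ => up (2 / ((2 * j + 1) * (1 - s)))
  | n + 1, j, w => up (2 * (1 - mu * w) / (2 * j + 1) + s * hor mu s n (j + 1) (dn (w * t0 ^ 2)))

/-- the coefficients -/
noncomputable def co (μ t : ℝ) (j : ℕ) : ℝ := 2 * (1 / (2 * j + 1)) * (1 - μ * t ^ (2 * j + 1))

/-- the tails -/
noncomputable def R (μ t s : ℝ) (j : ℕ) : ℝ := ∑' i : ℕ, co μ t (j + i) * s ^ i

section

variable {μ t s : ℝ} (hμ : 0 ≤ μ) (hμ1 : μ ≤ 1) (ht : 0 ≤ t) (ht1 : t < 1) (hs : 0 ≤ s) (hs1 : s < 1)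

include hμ hμ1 ht ht1 in
theorem co_nonneg (j : ℕ) : 0 ≤ co μ t j := by
  unfold co
  have h1 : t ^ (2 * j + 1) ≤ 1 := pow_le_one₀ ht ht1.le
  have h0 : 0 ≤ t ^ (2 * j + 1) := pow_nonneg ht _
  have : μ * t ^ (2 * j + 1) ≤ 1 := by nlinarith
  have h2 : (0:ℝ) ≤ 1 - μ * t ^ (2 * j + 1) := by linarith
  positivity

include hμ ht in
theorem co_le (j : ℕ) : co μ t j ≤ 2 / (2 * j + 1) := by
  unfold co
  have h0 : 0 ≤ μ * t ^ (2 * j + 1) := mul_nonneg hμ (pow_nonneg ht _)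
  have : (2:ℝ) * (1 / (2 * j + 1)) * (1 - μ * t ^ (2 * j + 1)) ≤ 2 * (1 / (2 * j + 1)) * 1 := by
    gcongr
    linarith
  calc _ ≤ _ := this
    _ = _ := by ring

include hμ hμ1 ht ht1 hs hs1

theorem summ (j : ℕ) : Summable fun i : ℕ => co μ t (j + i) * s ^ i := by
  have h : Summable fun i : ℕ => 2 * s ^ i := (summable_geometric_of_lt_one hs hs1).mul_left 2
  refine Summable.of_nonneg_of_le (fun i => mul_nonneg (co_nonneg hμ hμ1 ht ht1 _) (pow_nonneg hs _))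
    (fun i => ?_) h
  have h2 : co μ t (j + i) ≤ 2 := by
    refine (co_le hμ ht (j + i)).trans ?_
    rw [div_le_iff₀ (by positivity)]
    have : (0:ℝ) ≤ ((j + i : ℕ) : ℝ) := Nat.cast_nonneg _
    linarith
  exact mul_le_mul_of_nonneg_right h2 (pow_nonneg hs _)

theorem R_succ (j : ℕ) : R μ t s j = co μ t j + s * R μ t s (j + 1) := by
  unfold R
  rw [(summ hμ hμ1 ht ht1 hs hs1 j).tsum_eq_zero_add, ← tsum_mul_left]
  congr 1
  · simp
  · apply tsum_congr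
    intro i
    rw [show j + (i + 1) = j + 1 + i by ring, pow_succ]
    ring

omit hs1 in
theorem R_nonneg (j : ℕ) : 0 ≤ R μ t s j :=
  tsum_nonneg fun _ => mul_nonneg (co_nonneg hμ hμ1 ht ht1 _) (pow_nonneg hs _)

theorem R_le (j : ℕ) : R μ t s j ≤ 2 / ((2 * j + 1) * (1 - s)) := by
  have h : HasSum (fun i : ℕ => 2 / (2 * j + 1) * s ^ i) (2 / (2 * j + 1) * (1 - s)⁻¹) :=
    (hasSum_geometric_of_lt_one hs hs1).mul_left _
  have h2 : R μ t s j ≤ 2 / (2 * j + 1) * (1 - s)⁻¹ := by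
    rw [← h.tsum_eq]
    refine (summ hμ hμ1 ht ht1 hs hs1 j).tsum_le_tsum (fun i => ?_) h.summable
    refine mul_le_mul_of_nonneg_right ((co_le hμ ht (j + i)).trans ?_) (pow_nonneg hs _)
    apply div_le_div_of_nonneg_left (by norm_num) (by positivity)
    push_cast
    have : (0:ℝ) ≤ (i : ℝ) := Nat.cast_nonneg _
    linarith
  refine h2.trans (le_of_eq ?_)
  have : (1 - s) ≠ 0 := by linarith
  field_simp

end

theorem hor_spec {μ s₁ : ℚ} {t s : ℝ} (hμ : 0 ≤ μ) (hμ1 : μ ≤ 1) (ht : (t0 : ℝ) ≤ t) (ht1 : t < 1)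
    (hs : 0 ≤ s) (hs₁ : s ≤ s₁) (hs1 : s₁ < 1) (n : ℕ) :
    ∀ (j : ℕ) (w : ℚ), 0 ≤ w → (w : ℝ) ≤ t ^ (2 * j + 1) → R μ t s j ≤ (hor μ s₁ n j w : ℝ) := by
  have hμ' : (0 : ℝ) ≤ μ := by exact_mod_cast hμ
  have hμ1' : (μ : ℝ) ≤ 1 := by exact_mod_cast hμ1
  have ht0 : (0:ℝ) ≤ t := le_trans (by unfold t0; norm_num) ht
  have hs1' : (s₁ : ℝ) < 1 := by exact_mod_cast hs1
  have hss : s < 1 := lt_of_le_of_lt hs₁ hs1'
  induction n with
  | zero =>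
    intro j w _ _
    have h1 := R_le hμ' hμ1' ht0 ht1 hs hss j
    have h2 : (2 / ((2 * j + 1) * (1 - s)) : ℝ) ≤ 2 / ((2 * j + 1) * (1 - s₁)) := by
      apply div_le_div_of_nonneg_left (by norm_num)
      · have : (0:ℝ) < 1 - s₁ := by linarith
        positivity
      · gcongr
    have h3q : (2 / ((2 * (j : ℚ) + 1) * (1 - s₁)) : ℚ) ≤ hor μ s₁ 0 j w := le_up _
    have h3 := (Rat.cast_le (K := ℝ)).2 h3q
    push_cast at h3
    linarith
  | succ n ih =>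
    intro j w hw hwt
    have hw' : 0 ≤ dn (w * t0 ^ 2) := dn_nonneg (by unfold t0; positivity)
    have hwt' : ((dn (w * t0 ^ 2) : ℚ) : ℝ) ≤ t ^ (2 * (j + 1) + 1) := by
      have h1 : ((dn (w * t0 ^ 2) : ℚ) : ℝ) ≤ ((w * t0 ^ 2 : ℚ) : ℝ) := by exact_mod_cast dn_le _
      push_cast at h1
      have h0 : (0:ℝ) ≤ (t0 : ℝ) := by unfold t0; norm_num
      have h2 : (t0 : ℝ) ^ 2 ≤ t ^ 2 := pow_le_pow_left₀ h0 ht 2
      calc ((dn (w * t0 ^ 2) : ℚ) : ℝ) ≤ w * t0 ^ 2 := h1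
        _ ≤ t ^ (2 * j + 1) * t ^ 2 := by
            apply mul_le_mul hwt h2 (by positivity) (by positivity)
        _ = _ := by ring
    have h1 := ih (j + 1) _ hw' hwt'
    rw [R_succ hμ' hμ1' ht0 ht1 hs hss j]
    have h2 : co μ t j ≤ 2 * (1 - μ * w) / (2 * j + 1) := by
      unfold co
      rw [show (2:ℝ) * (1 / (2 * j + 1)) * (1 - μ * t ^ (2 * j + 1)) =
        2 * (1 - μ * t ^ (2 * j + 1)) / (2 * j + 1) by ring]
      gcongr
    have h3q : (2 * (1 - μ * w) / (2 * (j : ℚ) + 1) + s₁ * hor μ s₁ n (j + 1) (dn (w * t0 ^ 2)) : ℚ)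
        ≤ hor μ s₁ (n + 1) j w := le_up _
    have h3 := (Rat.cast_le (K := ℝ)).2 h3q
    push_cast at h3
    have h4 : s * R μ t s (j + 1) ≤ s₁ * hor μ s₁ n (j + 1) (dn (w * t0 ^ 2)) := by
      apply mul_le_mul hs₁ h1 (R_nonneg hμ' hμ1' ht0 ht1 hs _)
      exact hs.trans hs₁
    linarith

theorem log_eq_R {μ t T : ℝ} (hμ : 0 ≤ μ) (hμ1 : μ ≤ 1) (ht : 0 ≤ t) (ht1 : t < 1) (hT : 0 ≤ T)
    (hT1 : T < 1) :
    log (1 + T) - log (1 - T) - μ * (log (1 + t * T) - log (1 - t * T)) = T * R μ t (T ^ 2) 0 := by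
  have h1 := hasSum_log_sub_log_of_abs_lt_one (x := T) (by rw [abs_of_nonneg hT]; exact hT1)
  have h2 := (hasSum_log_sub_log_of_abs_lt_one (x := t * T) (by
    rw [abs_of_nonneg (by positivity)]; nlinarith)).mul_left μ
  have h3 := h1.sub h2
  have hs1 : T ^ 2 < 1 := by nlinarith
  have h4 := (summ hμ hμ1 ht ht1 (sq_nonneg T) hs1 0).hasSum.mul_left T
  have h5 : (fun i : ℕ => 2 * (1 / (2 * (i : ℝ) + 1)) * T ^ (2 * i + 1) -
      μ * (2 * (1 / (2 * (i : ℝ) + 1)) * (t * T) ^ (2 * i + 1))) =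
      fun i : ℕ => T * (co μ t (0 + i) * (T ^ 2) ^ i) := by
    funext i
    unfold co
    rw [zero_add]
    ring
  rw [h5] at h3
  exact h3.unique h4

theorem logT_le {t T : ℝ} (ht : 0 ≤ t) (ht1 : t < 1) (hT : 0 ≤ T) (hT1 : T ≤ 1) :
    log (1 + t * T) - log (1 - t * T) ≤ T * (log (1 + t) - log (1 - t)) := by
  have h1 := hasSum_log_sub_log_of_abs_lt_one (x := t * T) (by
    rw [abs_of_nonneg (by positivity)]; nlinarith)
  have h2 := (hasSum_log_sub_log_of_abs_lt_one (x := t) (by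
    rw [abs_of_nonneg ht]; exact ht1)).mul_left T
  refine hasSum_le (fun i => ?_) h1 h2
  have h3 : T ^ (2 * i + 1) ≤ T := by
    calc T ^ (2 * i + 1) ≤ T ^ 1 := pow_le_pow_of_le_one hT hT1 (by omega)
      _ = T := pow_one T
  rw [mul_pow]
  have h4 : 0 ≤ 2 * (1 / (2 * (i:ℝ) + 1)) * t ^ (2 * i + 1) := by positivity
  nlinarith

end EHP.NumB
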