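import Mathlib
import Pool.Agent.Helper52.EHP.Basic
import Pool.Agent.Helper1.EHP.NumBA

/-!
The function `QQ / T` and constants.
-/

open Real Set

namespace EHP.NumB

theorem log39 : log 39 ≤ 3.66357 := by
  have h2 := Real.log_two_lt_d9
  have h := Real.log_div_le_sum_range_add (x := 7 / 71) (by norm_num) (by norm_num) 3
  have e : (39 : ℝ) = 2 ^ 5 * ((1 + 7 / 71) / (1 - 7 / 71)) := by norm_num
  rw [e, Real.log_mul (by norm_num) (by norm_num), Real.log_pow]
  norm_num [Finset.sum_range_succ] at h ⊢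
  linarith

theorem logL2 : 3.0161 ≤ log (39.8 ^ 2 / 77.6) := by
  have h2 := Real.log_two_gt_d9
  have h := Real.sum_range_le_log_div (x := 12117 / 100000) (by norm_num) (by norm_num) 4
  have h3 : (2:ℝ) ^ 4 * ((1 + 12117 / 100000) / (1 - 12117 / 100000)) ≤ 39.8 ^ 2 / 77.6 := by norm_num
  refine le_trans ?_ (Real.log_le_log (by norm_num) h3)
  rw [Real.log_mul (by norm_num) (by norm_num), Real.log_pow]
  norm_num [Finset.sum_range_succ] at h ⊢
  linarith

/-- `T = (σ²-1)/(σ²+1)` -/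
noncomputable def TT (σ : ℝ) : ℝ := (σ ^ 2 - 1) / (σ ^ 2 + 1)

section

variable {k σ : ℝ} (hk : 38.8 ≤ k) (hk' : k ≤ 39) (hσ : 1 < σ)

include hσ in
theorem TT_pos : 0 < TT σ := by
  unfold TT
  apply div_pos <;> nlinarith

include hσ in
theorem TT_lt : TT σ < 1 := by
  unfold TT
  rw [div_lt_one (by positivity)]
  linarith

include hσ in
theorem SS_gt : 1 < SS σ := by
  unfold SS
  have : 0 < σ := by linarith
  rw [lt_div_iff₀ (by norm_num)]
  have h : 0 < (σ - 1) ^ 2 / σ := by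
    have : σ - 1 ≠ 0 := by linarith
    positivity
  have e : σ + 1 / σ = 2 + (σ - 1) ^ 2 / σ := by field_simp; ring
  linarith

include hσ in
theorem TT_sq : TT σ ^ 2 = 1 - 1 / SS σ ^ 2 := by
  unfold TT SS
  have : 0 < σ := by linarith
  field_simp
  ring

include hσ in
theorem logTT : log (1 + TT σ) - log (1 - TT σ) = 2 * log σ := by
  have h0 : 0 < σ := by linarith
  have h1 := TT_pos hσ
  have h2 := TT_lt hσ
  rw [← Real.log_div (by linarith) (by linarith)]
  have : (1 + TT σ) / (1 - TT σ) = σ ^ 2 := by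
    unfold TT
    field_simp
    ring
  rw [this, Real.log_pow]
  norm_num

/-- `(k-1)/(k+1)` -/
noncomputable def T1 (k : ℝ) : ℝ := (k - 1) / (k + 1)

include hk in
theorem T1_ge : ((t0 : ℚ) : ℝ) ≤ T1 k := by
  unfold T1 t0
  rw [le_div_iff₀ (by linarith)]
  push_cast
  linarith

include hk in
theorem T1_lt : T1 k < 1 := by
  unfold T1
  rw [div_lt_one (by linarith)]
  linarith

include hk in
theorem logT1 : log (1 + T1 k) - log (1 - T1 k) = log k := by
  have h2 := T1_lt hk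
  have h1 := T1_ge hk
  have h3 : (0:ℝ) < T1 k := lt_of_lt_of_le (by unfold t0; norm_num) h1
  rw [← Real.log_div (by linarith) (by linarith)]
  congr 1
  unfold T1
  have : (0:ℝ) < k + 1 := by linarith
  field_simp
  ring

include hk hσ in
theorem logT1T : log (1 + T1 k * TT σ) - log (1 - T1 k * TT σ) =
    log ((k * σ ^ 2 + 1) / (k + σ ^ 2)) := by
  have h2 := T1_lt hk
  have h1 := T1_ge hk
  have h3 : (0:ℝ) < T1 k := lt_of_lt_of_le (by unfold t0; norm_num) h1
  have h4 := TT_pos hσ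
  have h5 := TT_lt hσ
  have h6 : T1 k * TT σ < 1 := by nlinarith
  have h7 : 0 < T1 k * TT σ := by positivity
  rw [← Real.log_div (by linarith) (by linarith)]
  congr 1
  unfold T1 TT
  have : (0:ℝ) < k + 1 := by linarith
  have h8 : (0:ℝ) < k + σ ^ 2 := by positivity
  have h9 : (0:ℝ) < σ ^ 2 + 1 := by positivity
  have e1 : 1 - (k - 1) / (k + 1) * ((σ ^ 2 - 1) / (σ ^ 2 + 1)) =
      2 * (k + σ ^ 2) / ((k + 1) * (σ ^ 2 + 1)) := by field_simp; ring
  have e2 : 1 + (k - 1) / (k + 1) * ((σ ^ 2 - 1) / (σ ^ 2 + 1)) =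
      2 * (k * σ ^ 2 + 1) / ((k + 1) * (σ ^ 2 + 1)) := by field_simp; ring
  rw [e1, e2]
  field_simp

include hk in
theorem Lam_ge : 3.0161 ≤ Lam k := by
  refine logL2.trans ?_
  unfold Lam
  apply Real.log_le_log (by norm_num)
  rw [div_le_div_iff₀ (by norm_num) (by linarith)]
  nlinarith

include hk hk' hσ in
theorem q_le {m : ℝ} {μ S₁ : ℚ} (hm : 0 ≤ m) (hmμ : m ≤ μ) (hμ1 : μ ≤ 1) (hS : SS σ ≤ S₁)
    (N : ℕ) :
    QQ k m σ / TT σ ≤ (hor μ (1 - 1 / S₁ ^ 2) N 0 t0 : ℝ) + μ * 3.66357 - 3.0161 := by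
  have hT := TT_pos hσ
  have hT1 := TT_lt hσ
  have ht := T1_ge hk
  have ht1 := T1_lt hk
  have ht0 : (0:ℝ) < T1 k := lt_of_lt_of_le (by unfold t0; norm_num) ht
  have hμ0 : (0:ℝ) ≤ μ := hm.trans hmμ
  have hμ0' : 0 ≤ μ := by exact_mod_cast hμ0
  have hμ1' : (μ : ℝ) ≤ 1 := by exact_mod_cast hμ1
  have hS0 := SS_gt hσ
  have hS1 : (1:ℝ) < S₁ := lt_of_lt_of_le hS0 hS
  -- monotone in m
  have h1 : QQ k m σ ≤ QQ k μ σ := by
    have h2 := logT_le ht0.le ht1 hT.le hT1.le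
    rw [logT1T hk hσ, logT1 hk] at h2
    unfold QQ
    have h3 : (σ ^ 2 - 1) / (σ ^ 2 + 1) = TT σ := rfl
    rw [mul_div_assoc, mul_div_assoc, h3]
    nlinarith
  have h2 := log_eq_R hμ0 hμ1' ht0.le ht1 hT.le hT1
  rw [logTT hσ, logT1T hk hσ] at h2
  have h3 : QQ k μ σ = TT σ * (R μ (T1 k) (TT σ ^ 2) 0 + μ * log k - Lam k) := by
    have e : QQ k μ σ = (2 * log σ - μ * log ((k * σ ^ 2 + 1) / (k + σ ^ 2))) +
        (μ * log k - Lam k) * TT σ := by
      unfold QQ TT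
      ring
    rw [e, h2]
    ring
  have h4 : R μ (T1 k) (TT σ ^ 2) 0 ≤ (hor μ (1 - 1 / S₁ ^ 2) N 0 t0 : ℝ) := by
    apply hor_spec hμ0' hμ1 ht ht1 (sq_nonneg _)
    · rw [TT_sq hσ]
      push_cast
      have : 0 < SS σ := by linarith
      gcongr
    · have : (1:ℚ) < S₁ := by exact_mod_cast hS1
      have : 0 < 1 / S₁ ^ 2 := by positivity
      linarith
    · unfold t0; norm_num
    · simpa using ht
  have h5 : log k ≤ 3.66357 := (Real.log_le_log (by linarith) hk').trans log39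
  have h6 := Lam_ge hk
  calc QQ k m σ / TT σ ≤ QQ k μ σ / TT σ := by gcongr
    _ = R μ (T1 k) (TT σ ^ 2) 0 + μ * log k - Lam k := by
        rw [h3]
        field_simp
    _ ≤ _ := by
        have : μ * log k ≤ μ * 3.66357 := mul_le_mul_of_nonneg_left h5 hμ0
        linarith

include hk in
theorem H_le : H k ≤ 0.049 := by
  unfold H
  rw [div_le_iff₀ (by positivity)]
  nlinarith

include hk hk' in
theorem H_ge : 0.04875 ≤ H k := by
  unfold H
  rw [le_div_iff₀ (by positivity)]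
  nlinarith

include hk hk' in
theorem sqrtH_ge : 0.2207 ≤ √(H k) := by
  apply Real.le_sqrt_of_sq_le
  refine le_trans (by norm_num) (H_ge hk hk')

include hk hk' hσ in
theorem lhs_eq (ρ Q : ℝ) : π * ρ * SS σ * Q / (yy k σ / 2) = π * ρ / √(H k) * (Q / TT σ) := by
  have h0 : (0:ℝ) < √(H k) := lt_of_lt_of_le (by norm_num) (sqrtH_ge hk hk')
  have h1 : 0 < σ := by linarith
  have h2 : 0 < σ ^ 2 - 1 := by nlinarith
  have e : yy k σ = √(H k) * ((σ ^ 2 - 1) / σ) := by unfold yy; field_simp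
  have e2 : SS σ = (σ ^ 2 + 1) / (2 * σ) := by unfold SS; field_simp
  rw [e, e2]
  unfold TT
  field_simp

include hk hk' in
theorem yy_sq : (yy k σ / 2) ^ 2 = H k * (SS σ ^ 2 - 1) ∨ σ = 0 := by
  by_cases hσ0 : σ = 0
  · exact Or.inr hσ0
  left
  have h0 : 0 ≤ H k := le_trans (by norm_num) (H_ge hk hk')
  unfold yy SS
  rw [div_pow, mul_pow, Real.sq_sqrt h0]
  field_simp
  ring

end

end EHP.NumB
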