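import Mathlib
import Pool.Agent.Helper52.EHP.Basic
import Pool.Agent.Helper1.EHP.NumBB

/-!
Verified subdivision for the conditions (B'), (C').
-/

open Real Set

namespace EHP.NumB

/-- a Newton step for the square root of `z`, always an upper bound -/
def newt (z c : ℚ) : ℚ := up ((z / c + c) / 2)

/-- upper bound for `x = ρ(1-m)/U` -/
def xhat (r u0 S0 : ℚ) : ℚ :=
  if 4875 / 100000 * (S0 ^ 2 - 1) ≤ r ^ 2 * (1 - u0) ^ 2 then 1
  else min 1 (newt (r ^ 2 * (1 - u0) ^ 2 / (4875 / 100000 * (S0 ^ 2 - 1)))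
    (newt (r ^ 2 * (1 - u0) ^ 2 / (4875 / 100000 * (S0 ^ 2 - 1)))
      (newt (r ^ 2 * (1 - u0) ^ 2 / (4875 / 100000 * (S0 ^ 2 - 1))) (3 / 4))))

/-- upper bound for `QQ / T` -/
def qhat (S1 u1 : ℚ) : ℚ :=
  hor u1 (1 - 1 / S1 ^ 2) 30 0 t0 + u1 * (366357 / 100000) - 30161 / 10000

/-- the check on a rectangle -/
def leafq (r a S0 S1 u0 q x : ℚ) : Bool :=
  decide (0 ≤ q) &&
  (decide (r ^ 2 * (1 - u0) ^ 2 < 4875 / 100000 * (S0 ^ 2 - 1)) ||
    decide (31416 / 10000 * r / (2207 / 10000) * q ≤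
      2 * (31415 / 10000) * (6931 / 10000) * S0 + 1 -
        (1 + 4 * (49 / 1000) * (S1 ^ 2 - 1) / (a + 1)) / 5)) &&
  (decide (4 * r ^ 2 * (1 - u0) ^ 2 < 4875 / 100000 * (S0 ^ 2 - 1)) ||
    decide (31416 / 10000 * r / (2207 / 10000) * q ≤
      31415 / 10000 * S0 * (2 - 2 * x * (1 - 6931 / 10000)) + 1 -
        (1 + 4 * (49 / 1000) * (S1 ^ 2 - 1) / (a + 1)) * x / 18))

/-- the check on a rectangle -/
def leaf (r a S0 S1 u0 u1 : ℚ) : Bool := leafq r a S0 S1 u0 (qhat S1 u1) (xhat r u0 S0)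

/-- recursive subdivision -/
def chk (r a : ℚ) : ℕ → ℚ → ℚ → ℚ → ℚ → Bool
  | 0, S0, S1, u0, u1 => leaf r a S0 S1 u0 u1
  | n + 1, S0, S1, u0, u1 => leaf r a S0 S1 u0 u1 ||
      (if (u1 - u0) * 2 < S1 - S0 then
        chk r a n S0 ((S0 + S1) / 2) u0 u1 && chk r a n ((S0 + S1) / 2) S1 u0 u1
      else chk r a n S0 S1 u0 ((u0 + u1) / 2) && chk r a n S0 S1 ((u0 + u1) / 2) u1)

/-- both conditions at the point `(σ, m)` -/
def Good (r a : ℚ) (S m : ℝ) : Prop :=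
  ∀ k σ ρ a' : ℝ, 38.8 ≤ k → k ≤ 39 → 1 < σ → SS σ = S → 0 ≤ ρ → ρ ≤ r → (a : ℝ) ≤ a' →
    (yy k σ / 2 ≤ ρ * (1 - m) →
      π * ρ * SS σ * QQ k m σ / (yy k σ / 2) ≤
        2 * π * log 2 * SS σ + 1 - (1 + yy k σ ^ 2 / (a' + 1)) / 5) ∧
    (∀ x, x = ρ * (1 - m) / (yy k σ / 2) → 1 / 2 < x → x ≤ 1 →
      π * ρ * SS σ * QQ k m σ / (yy k σ / 2) ≤
        π * SS σ * (2 - 2 * x * (1 - log 2)) + 1 - (1 + yy k σ ^ 2 / (a' + 1)) * x / 18)

theorem newt_spec {z c : ℚ} (hc : 0 < c) {x : ℝ} (hz : x ^ 2 ≤ z) :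
    0 < newt z c ∧ x ≤ newt z c := by
  have hz0 : 0 ≤ z := by
    have : (0:ℝ) ≤ z := (sq_nonneg x).trans hz
    exact_mod_cast this
  have h1 : (z / c + c) / 2 ≤ newt z c := le_up _
  constructor
  · refine lt_of_lt_of_le ?_ h1
    positivity
  · have h2 := (Rat.cast_le (K := ℝ)).2 h1
    push_cast at h2
    refine le_trans ?_ h2
    have hc' : (0:ℝ) < c := by exact_mod_cast hc
    have h3 : x ^ 2 / c ≤ z / c := by gcongr
    have h4 : x ≤ (x ^ 2 / c + c) / 2 := by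
      rw [le_div_iff₀ (by norm_num), div_add' _ _ _ hc'.ne', le_div_iff₀ hc']
      nlinarith [sq_nonneg (x - c)]
    linarith

theorem xhat_spec {r u0 S0 : ℚ} {x : ℝ} (hx1 : x ≤ 1)
    (hx : 4875 / 100000 * ((S0 : ℝ) ^ 2 - 1) * x ^ 2 ≤ (r : ℝ) ^ 2 * (1 - u0) ^ 2) :
    x ≤ xhat r u0 S0 ∧ xhat r u0 S0 ≤ 1 := by
  unfold xhat
  split_ifs with h
  · exact ⟨by simpa using hx1, le_refl _⟩
  · refine ⟨?_, min_le_left _ _⟩
    push Not at h
    have h0 : 0 < 4875 / 100000 * (S0 ^ 2 - 1) := by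
      refine lt_of_le_of_lt ?_ h
      positivity
    have h0' : (0:ℝ) < 4875 / 100000 * ((S0:ℝ) ^ 2 - 1) := by
      have := (Rat.cast_lt (K := ℝ)).2 h0
      push_cast at this
      exact this
    have hz : x ^ 2 ≤ ((r ^ 2 * (1 - u0) ^ 2 / (4875 / 100000 * (S0 ^ 2 - 1)) : ℚ) : ℝ) := by
      push_cast
      rw [le_div_iff₀ h0']
      linarith
    have h1 := newt_spec (c := 3 / 4) (by norm_num) hz
    have h2 := newt_spec h1.1 hz
    have h3 := newt_spec h2.1 hz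
    have : x ≤ ((min 1 (newt (r ^ 2 * (1 - u0) ^ 2 / (4875 / 100000 * (S0 ^ 2 - 1)))
    (newt (r ^ 2 * (1 - u0) ^ 2 / (4875 / 100000 * (S0 ^ 2 - 1)))
      (newt (r ^ 2 * (1 - u0) ^ 2 / (4875 / 100000 * (S0 ^ 2 - 1))) (3 / 4)))) : ℚ) : ℝ) := by
      rw [Rat.cast_min]
      exact le_min (by simpa using hx1) h3.2
    exact this

set_option maxHeartbeats 2000000 in
theorem leaf_sound {r a S0 S1 u0 u1 : ℚ} {S m : ℝ} (h : leaf r a S0 S1 u0 u1 = true)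
    (hr : 0 ≤ r) (ha : -1 < a) (hS0 : 1 ≤ S0) (hu0 : 0 ≤ u0) (hu1 : u1 ≤ 1)
    (h0 : (S0 : ℝ) ≤ S) (h1 : S ≤ S1) (h2 : (u0 : ℝ) ≤ m) (h3 : m ≤ u1) : Good r a S m := by
  intro k σ ρ a' hk hk' hσ hSS hρ hρr haa
  subst hSS
  have hS := SS_gt hσ
  have hT := TT_pos hσ
  have hsH := sqrtH_ge hk hk'
  have hH0 := H_ge hk hk'
  have hH1 := H_le hk
  have hU2 : (yy k σ / 2) ^ 2 = H k * (SS σ ^ 2 - 1) := by
    rcases yy_sq (σ := σ) hk hk' with h | h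
    · exact h
    · rw [h] at hσ; norm_num at hσ
  have hy0 : 0 < yy k σ := by
    unfold yy
    have : 1 / σ < 1 := by rw [div_lt_one (by linarith)]; exact hσ
    have h4 : 0 < σ - 1 / σ := by linarith
    positivity
  have hr' : (0:ℝ) ≤ r := by exact_mod_cast hr
  have ha' : (-1:ℝ) < a := by exact_mod_cast ha
  have hS0' : (1:ℝ) ≤ S0 := by exact_mod_cast hS0
  have hu0' : (0:ℝ) ≤ u0 := by exact_mod_cast hu0
  have hu1' : (u1:ℝ) ≤ 1 := by exact_mod_cast hu1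
  have hq := q_le hk hk' hσ (hu0'.trans h2) h3 hu1 h1 30
  have hqe : ((hor u1 (1 - 1 / S1 ^ 2) 30 0 t0 : ℚ) : ℝ) + u1 * 3.66357 - 3.0161 = (qhat S1 u1 : ℝ) := by
    unfold qhat
    push_cast
    norm_num
  rw [hqe] at hq
  unfold leaf leafq at h
  rw [Bool.and_eq_true, Bool.and_eq_true, Bool.or_eq_true, Bool.or_eq_true, decide_eq_true_eq,
    decide_eq_true_eq, decide_eq_true_eq, decide_eq_true_eq, decide_eq_true_eq] at h
  obtain ⟨⟨hq0, hB⟩, hC⟩ := h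
  have hq0' : (0:ℝ) ≤ (qhat S1 u1 : ℝ) := by exact_mod_cast hq0
  -- the common left hand side
  have hL : π * ρ * SS σ * QQ k m σ / (yy k σ / 2) ≤
      31416 / 10000 * r / (2207 / 10000) * (qhat S1 u1 : ℝ) := by
    rw [lhs_eq hk hk' hσ]
    have hA0 : 0 ≤ π * ρ / √(H k) := by positivity
    have hA : π * ρ / √(H k) ≤ 31416 / 10000 * r / (2207 / 10000) := by
      have hpi := Real.pi_lt_d4
      apply div_le_div₀ (by positivity) _ (by norm_num) (by linarith)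
      exact mul_le_mul (by linarith) hρr hρ (by norm_num)
    calc π * ρ / √(H k) * (QQ k m σ / TT σ) ≤ π * ρ / √(H k) * (qhat S1 u1 : ℝ) :=
          mul_le_mul_of_nonneg_left hq hA0
      _ ≤ _ := mul_le_mul_of_nonneg_right hA hq0'
  have hY : yy k σ ^ 2 / (a' + 1) ≤ 4 * (49 / 1000) * ((S1:ℝ) ^ 2 - 1) / (a + 1) := by
    have e : yy k σ ^ 2 = 4 * (H k * (SS σ ^ 2 - 1)) := by rw [← hU2]; ring
    have h5 : SS σ ^ 2 ≤ (S1:ℝ) ^ 2 := by gcongr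
    have h6 : 0 ≤ SS σ ^ 2 - 1 := by nlinarith
    apply div_le_div₀ _ _ (by linarith) (by linarith)
    · have : 0 ≤ (S1:ℝ) ^ 2 - 1 := by linarith
      positivity
    · rw [e]
      have h7 : H k * (SS σ ^ 2 - 1) ≤ 0.049 * (SS σ ^ 2 - 1) :=
        mul_le_mul_of_nonneg_right hH1 h6
      have h8 : 0.049 * (SS σ ^ 2 - 1) ≤ 0.049 * ((S1:ℝ) ^ 2 - 1) := by gcongr
      have h9 : (0.049:ℝ) = 49 / 1000 := by norm_num
      rw [h9] at h7 h8
      linarith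
  have hY0 : 0 ≤ yy k σ ^ 2 / (a' + 1) := by
    have : 0 < a' + 1 := by linarith
    positivity
  have hlow : 4875 / 100000 * ((S0:ℝ) ^ 2 - 1) ≤ (yy k σ / 2) ^ 2 := by
    rw [hU2]
    have h5 : (S0:ℝ) ^ 2 ≤ SS σ ^ 2 := by gcongr
    have h6 : 0 ≤ (S0:ℝ) ^ 2 - 1 := by nlinarith
    have h7 : (4875 / 100000 : ℝ) ≤ H k := by
      refine le_trans (by norm_num) hH0
    have h8 : 0 ≤ H k := by linarith
    calc 4875 / 100000 * ((S0:ℝ) ^ 2 - 1) ≤ H k * ((S0:ℝ) ^ 2 - 1) :=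
          mul_le_mul_of_nonneg_right h7 h6
      _ ≤ H k * (SS σ ^ 2 - 1) := mul_le_mul_of_nonneg_left (by linarith) h8
  have hpi := Real.pi_gt_d4
  have hl2 := Real.log_two_gt_d9
  have hl2' := Real.log_two_lt_d9
  have hm1 : 0 ≤ 1 - m := by linarith
  have hm0 : 1 - m ≤ 1 - u0 := by linarith
  constructor
  · intro hB1
    have h5 : ¬ (r ^ 2 * (1 - u0) ^ 2 < 4875 / 100000 * (S0 ^ 2 - 1)) := by
      intro h5
      have h6 := (Rat.cast_lt (K := ℝ)).2 h5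
      push_cast at h6
      have h7 : (yy k σ / 2) ^ 2 ≤ (ρ * (1 - m)) ^ 2 := by gcongr
      have h8 : ρ * (1 - m) ≤ r * (1 - u0) := mul_le_mul hρr hm0 hm1 hr'
      have h9 : (ρ * (1 - m)) ^ 2 ≤ ((r:ℝ) * (1 - u0)) ^ 2 := by gcongr
      rw [mul_pow (r:ℝ)] at h9
      linarith
    have h6 := (Rat.cast_le (K := ℝ)).2 (hB.resolve_left h5)
    push_cast at h6
    refine hL.trans (h6.trans ?_)
    have h7 : 2 * (31415 / 10000) * (6931 / 10000) * (S0:ℝ) ≤ 2 * π * log 2 * SS σ := by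
      have h8 : (2 * (31415 / 10000) * (6931 / 10000) : ℝ) ≤ 2 * π * log 2 := by
        apply mul_le_mul (by linarith) (by linarith) (by norm_num) (by positivity)
      apply mul_le_mul h8 h0 (by linarith) (by positivity)
    linarith
  · intro x hx hx2 hx1
    have hU : 0 < yy k σ / 2 := by linarith
    have hxU : x * (yy k σ / 2) = ρ * (1 - m) := by rw [hx]; field_simp
    have h8 : ρ * (1 - m) ≤ r * (1 - u0) := mul_le_mul hρr hm0 hm1 hr'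
    have hx0 : 0 < x := by linarith
    have h5 : ¬ (4 * r ^ 2 * (1 - u0) ^ 2 < 4875 / 100000 * (S0 ^ 2 - 1)) := by
      intro h5
      have h6 := (Rat.cast_lt (K := ℝ)).2 h5
      push_cast at h6
      have h7 : (yy k σ / 2) ≤ 2 * (ρ * (1 - m)) := by nlinarith
      have h9 : (yy k σ / 2) ^ 2 ≤ (2 * ((r:ℝ) * (1 - u0))) ^ 2 := by
        apply pow_le_pow_left₀ hU.le
        linarith
      have e : (2 * ((r:ℝ) * (1 - u0))) ^ 2 = 4 * r ^ 2 * (1 - u0) ^ 2 := by ring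
      rw [e] at h9
      linarith
    have h6 := (Rat.cast_le (K := ℝ)).2 (hC.resolve_left h5)
    push_cast at h6
    have hprem : 4875 / 100000 * ((S0 : ℝ) ^ 2 - 1) * x ^ 2 ≤ (r : ℝ) ^ 2 * (1 - u0) ^ 2 := by
      have h9 : (x * (yy k σ / 2)) ^ 2 ≤ ((r:ℝ) * (1 - u0)) ^ 2 := by
        rw [hxU]
        exact pow_le_pow_left₀ (mul_nonneg hρ hm1) h8 2
      rw [mul_pow, mul_pow] at h9
      have h10 : 4875 / 100000 * ((S0 : ℝ) ^ 2 - 1) * x ^ 2 ≤ (yy k σ / 2) ^ 2 * x ^ 2 :=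
        mul_le_mul_of_nonneg_right hlow (sq_nonneg x)
      linarith only [h9, h10]
    obtain ⟨hxx1, hxx2⟩ := xhat_spec (r := r) (u0 := u0) (S0 := S0) (x := x) hx1 hprem
    have hxx2' : ((xhat r u0 S0 : ℚ) : ℝ) ≤ 1 := by exact_mod_cast hxx2
    refine hL.trans (h6.trans ?_)
    generalize ((xhat r u0 S0 : ℚ) : ℝ) = X at *
    have h9 : 2 - 2 * X * (1 - 6931 / 10000) ≤ 2 - 2 * x * (1 - log 2) := by
      have : x * (1 - log 2) ≤ X * (1 - 6931 / 10000) := by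
        apply mul_le_mul hxx1 (by linarith) (by linarith) (by linarith)
      linarith
    have h10 : 0 ≤ 2 - 2 * X * (1 - 6931 / 10000) := by
      have : X * (1 - 6931 / 10000) ≤ 1 * (1 - 6931 / 10000) :=
        mul_le_mul_of_nonneg_right hxx2' (by norm_num)
      linarith
    have h11 : 31415 / 10000 * (S0:ℝ) * (2 - 2 * X * (1 - 6931 / 10000)) ≤
        π * SS σ * (2 - 2 * x * (1 - log 2)) := by
      apply mul_le_mul _ h9 h10 (by positivity)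
      apply mul_le_mul (by linarith) h0 (by linarith) (by positivity)
    have h12 : (1 + yy k σ ^ 2 / (a' + 1)) * x ≤ (1 + 4 * (49 / 1000) * ((S1:ℝ) ^ 2 - 1) / (a + 1)) * X := by
      apply mul_le_mul (by linarith) hxx1 hx0.le (by linarith)
    linarith

theorem chk_sound {r a : ℚ} (hr : 0 ≤ r) (ha : -1 < a) (n : ℕ) : ∀ {S0 S1 u0 u1 : ℚ} {S m : ℝ},
    chk r a n S0 S1 u0 u1 = true → 1 ≤ S0 → 0 ≤ u0 → u1 ≤ 1 → S0 ≤ S1 → u0 ≤ u1 →
    (S0 : ℝ) ≤ S → S ≤ S1 → (u0 : ℝ) ≤ m → m ≤ u1 → Good r a S m := by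
  induction n with
  | zero =>
    intro S0 S1 u0 u1 S m h hS0 hu0 hu1 _ _ h0 h1 h2 h3
    exact leaf_sound h hr ha hS0 hu0 hu1 h0 h1 h2 h3
  | succ n ih =>
    intro S0 S1 u0 u1 S m h hS0 hu0 hu1 hSS huu h0 h1 h2 h3
    unfold chk at h
    rw [Bool.or_eq_true] at h
    rcases h with h | h
    · exact leaf_sound h hr ha hS0 hu0 hu1 h0 h1 h2 h3
    · split_ifs at h with hc
      · rw [Bool.and_eq_true] at h
        rcases le_total S (((S0 + S1) / 2 : ℚ) : ℝ) with h4 | h4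
        · exact ih h.1 hS0 hu0 hu1 (by linarith) huu h0 h4 h2 h3
        · exact ih h.2 (by linarith) hu0 hu1 (by linarith) huu h4 h1 h2 h3
      · rw [Bool.and_eq_true] at h
        rcases le_total m (((u0 + u1) / 2 : ℚ) : ℝ) with h4 | h4
        · exact ih h.1 hS0 hu0 (by linarith) hSS (by linarith) h0 h1 h2 h4
        · exact ih h.2 hS0 (by linarith) hu1 hSS (by linarith) h0 h1 h4 h3

theorem far {r a Sm u0 : ℚ} {S m : ℝ} (hr : 0 ≤ r) (hSm : 1 ≤ Sm) (hS : (Sm : ℝ) < S)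
    (hm0 : (u0 : ℝ) ≤ m) (hm1 : m ≤ 1)
    (h : 4 * r ^ 2 * (1 - u0) ^ 2 ≤ 4875 / 100000 * (Sm ^ 2 - 1)) : Good r a S m := by
  intro k σ ρ a' hk hk' hσ hSS hρ hρr _
  subst hSS
  have hS' := SS_gt hσ
  have hH0 := H_ge hk hk'
  have hU2 : (yy k σ / 2) ^ 2 = H k * (SS σ ^ 2 - 1) := by
    rcases yy_sq (σ := σ) hk hk' with h | h
    · exact h
    · rw [h] at hσ; norm_num at hσ
  have hsH := sqrtH_ge hk hk'
  have hy0 : 0 < yy k σ := by
    unfold yy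
    have : 1 / σ < 1 := by rw [div_lt_one (by linarith)]; exact hσ
    have h4 : 0 < σ - 1 / σ := by linarith
    positivity
  have hr' : (0:ℝ) ≤ r := by exact_mod_cast hr
  have hSm' : (1:ℝ) ≤ Sm := by exact_mod_cast hSm
  have h' := (Rat.cast_le (K := ℝ)).2 h
  push_cast at h'
  have h8 : ρ * (1 - m) ≤ r * (1 - u0) := mul_le_mul hρr (by linarith) (by linarith) hr'
  have h80 : 0 ≤ ρ * (1 - m) := mul_nonneg hρ (by linarith)
  have key : 2 * (ρ * (1 - m)) < yy k σ / 2 := by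
    by_contra hcon
    push Not at hcon
    have h9 : (yy k σ / 2) ^ 2 ≤ (2 * ((r:ℝ) * (1 - u0))) ^ 2 := by
      apply pow_le_pow_left₀ (by linarith)
      linarith
    have e : (2 * ((r:ℝ) * (1 - u0))) ^ 2 = 4 * r ^ 2 * (1 - u0) ^ 2 := by ring
    rw [e, hU2] at h9
    have h10 : (Sm:ℝ) ^ 2 < SS σ ^ 2 := by gcongr
    have h11 : 4875 / 100000 * ((Sm:ℝ) ^ 2 - 1) < H k * (SS σ ^ 2 - 1) := by
      have h12 : (4875 / 100000 : ℝ) ≤ H k := le_trans (by norm_num) hH0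
      have h13 : 0 ≤ (Sm:ℝ) ^ 2 - 1 := by nlinarith
      calc 4875 / 100000 * ((Sm:ℝ) ^ 2 - 1) ≤ H k * ((Sm:ℝ) ^ 2 - 1) :=
            mul_le_mul_of_nonneg_right h12 h13
        _ < H k * (SS σ ^ 2 - 1) := mul_lt_mul_of_pos_left (by linarith) (by linarith)
    linarith
  constructor
  · intro hB
    linarith
  · intro x hx hx2 _
    rw [hx, lt_div_iff₀ (by linarith)] at hx2
    linarith

theorem range_sound {r a Sm u0 u1 : ℚ} {S m : ℝ} (n : ℕ) (hc : chk r a n 1 Sm u0 u1 = true)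
    (hr : 0 ≤ r) (ha : -1 < a) (hSm : 1 ≤ Sm) (hu0 : 0 ≤ u0) (huu : u0 ≤ u1) (hu1 : u1 ≤ 1)
    (h : 4 * r ^ 2 * (1 - u0) ^ 2 ≤ 4875 / 100000 * (Sm ^ 2 - 1)) (hS : 1 ≤ S)
    (h2 : (u0 : ℝ) ≤ m) (h3 : m ≤ u1) : Good r a S m := by
  rcases le_or_gt S Sm with h4 | h4
  · exact chk_sound hr ha n hc le_rfl hu0 hu1 hSm huu (by simpa using hS) h4 h2 h3
  · have : (u1 : ℝ) ≤ 1 := by exact_mod_cast hu1
    exact far hr hSm h4 h2 (by linarith) h

end EHP.NumB
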