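import Mathlib
import Pool.Agent.Helper52.EHP.Basic
import Pool.Agent.Helper1.EHP.NumBC

/-!
The numerical conditions (B'), (C').
-/

open Real Set

namespace EHP

namespace NumB

theorem c1 : chk (96/100) (-4205/10000) 12 1 (448/100) (50/100) (70/100) = true := by decide +kernel

theorem c2 : chk (86/100) (-177/1000) 12 1 (255/100) (70/100) (78/100) = true := by decide +kernel

theorem c3 : chk (82/100) (-83/1000) 12 1 (192/100) (78/100) (80/100) = true := by decide +kernel

theorem c4 : chk (73/100) (-6/100) 12 1 (166/100) (80/100) (82/100) = true := by decide +kernel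

theorem c5 : chk (66/100) (-37/1000) 12 1 (147/100) (82/100) (86/100) = true := by decide +kernel

theorem good_imp {r a : ℚ} {k ρ m a' : ℝ} (hk : 38.8 ≤ k) (hk' : k ≤ 39) (hρ : 0 ≤ ρ)
    (hρr : ρ ≤ r) (ha : (a : ℝ) ≤ a') (h : ∀ S : ℝ, 1 ≤ S → Good r a S m) :
    HB k ρ m a' ∧ HC k ρ m a' := by
  constructor
  · intro σ hσ hB
    exact (h (SS σ) (SS_gt hσ).le k σ ρ a' hk hk' hσ rfl hρ hρr ha).1 hB
  · intro σ x hσ hx hx2 hx1
    exact (h (SS σ) (SS_gt hσ).le k σ ρ a' hk hk' hσ rfl hρ hρr ha).2 x hx hx2 hx1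

end NumB

open NumB

theorem numB {k ρ m a : ℝ} (hk : 38.8 ≤ k) (hk' : k ≤ 39) (hρ : 0 ≤ ρ)
    (h : (0.5 ≤ m ∧ m ≤ 0.7 ∧ ρ ≤ 0.96 ∧ -0.4205 ≤ a) ∨ (0.7 ≤ m ∧ m ≤ 0.78 ∧ ρ ≤ 0.86 ∧ -0.177 ≤ a) ∨
      (0.78 ≤ m ∧ m ≤ 0.8 ∧ ρ ≤ 0.82 ∧ -0.083 ≤ a) ∨ (0.8 ≤ m ∧ m ≤ 0.82 ∧ ρ ≤ 0.73 ∧ -0.06 ≤ a) ∨
      (0.82 ≤ m ∧ m ≤ 0.86 ∧ ρ ≤ 0.66 ∧ -0.037 ≤ a)) : HB k ρ m a ∧ HC k ρ m a := by
  rcases h with ⟨h1, h2, h3, h4⟩ | ⟨h1, h2, h3, h4⟩ | ⟨h1, h2, h3, h4⟩ | ⟨h1, h2, h3, h4⟩ |
    ⟨h1, h2, h3, h4⟩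
  · refine good_imp (r := 96/100) (a := -4205/10000) hk hk' hρ (by push_cast; linarith)
      (by push_cast; linarith) fun S hS => ?_
    exact range_sound 12 c1 (by norm_num) (by norm_num) (by norm_num) (by norm_num) (by norm_num)
      (by norm_num) (by norm_num) hS (by push_cast; linarith) (by push_cast; linarith)
  · refine good_imp (r := 86/100) (a := -177/1000) hk hk' hρ (by push_cast; linarith)
      (by push_cast; linarith) fun S hS => ?_
    exact range_sound 12 c2 (by norm_num) (by norm_num) (by norm_num) (by norm_num) (by norm_num)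
      (by norm_num) (by norm_num) hS (by push_cast; linarith) (by push_cast; linarith)
  · refine good_imp (r := 82/100) (a := -83/1000) hk hk' hρ (by push_cast; linarith)
      (by push_cast; linarith) fun S hS => ?_
    exact range_sound 12 c3 (by norm_num) (by norm_num) (by norm_num) (by norm_num) (by norm_num)
      (by norm_num) (by norm_num) hS (by push_cast; linarith) (by push_cast; linarith)
  · refine good_imp (r := 73/100) (a := -6/100) hk hk' hρ (by push_cast; linarith)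
      (by push_cast; linarith) fun S hS => ?_
    exact range_sound 12 c4 (by norm_num) (by norm_num) (by norm_num) (by norm_num) (by norm_num)
      (by norm_num) (by norm_num) hS (by push_cast; linarith) (by push_cast; linarith)
  · refine good_imp (r := 66/100) (a := -37/1000) hk hk' hρ (by push_cast; linarith)
      (by push_cast; linarith) fun S hS => ?_
    exact range_sound 12 c5 (by norm_num) (by norm_num) (by norm_num) (by norm_num) (by norm_num)
      (by norm_num) (by norm_num) hS (by push_cast; linarith) (by push_cast; linarith)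

end EHP
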